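import Mathlib
import Pool.Agent.H15.WC3

set_option autoImplicit false

namespace Pool.Agent.Results.MP_bb0bf1_gt.Char

/-- a closed preorder -/
def ClosedPreorder {X : Type} [TopologicalSpace X] (r : X → X → Prop) : Prop :=
  (∀ x, r x x) ∧ (∀ x y z, r x y → r y z → r x z) ∧ IsClosed {p : X × X | r p.1 p.2}

/-- weak continuity -/
def WeaklyContinuous {X : Type} [TopologicalSpace X] (r : X → X → Prop) : Prop :=
  ∀ x y, r x y → ¬ r y x → ∃ f : X → ℝ, Continuous f ∧ (∀ a b, r a b → f a ≤ f b) ∧ f x < f y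

/-- continuous multi-utility representation -/
def MultiUtility {X : Type} [TopologicalSpace X] (r : X → X → Prop) : Prop :=
  ∃ F : Set (X → ℝ), (∀ f ∈ F, Continuous f ∧ ∀ a b, r a b → f a ≤ f b) ∧
    ∀ x y, r x y ↔ ∀ f ∈ F, f x ≤ f y

def Decreasing {X : Type} (r : X → X → Prop) (D : Set X) : Prop := ∀ z x, r z x → x ∈ D → z ∈ D

def Increasing {X : Type} (r : X → X → Prop) (D : Set X) : Prop := ∀ z x, r x z → x ∈ D → z ∈ D

/-- normal preorder -/
def Normal {X : Type} [TopologicalSpace X] (r : X → X → Prop) : Prop :=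
  ∀ A B : Set X, IsClosed A → Decreasing r A → IsClosed B → Increasing r B → Disjoint A B →
    ∃ U V : Set X, IsOpen U ∧ Decreasing r U ∧ IsOpen V ∧ Increasing r V ∧
      A ⊆ U ∧ B ⊆ V ∧ Disjoint U V

/-- the property of Q1 -/
def Q (X : Type) [TopologicalSpace X] : Prop :=
  ∀ r : X → X → Prop, ClosedPreorder r → WeaklyContinuous r

theorem result (X : Type) [TopologicalSpace X] :
    (Q X ↔ ∀ r : X → X → Prop, ClosedPreorder r → Normal r) ∧
    (Q X ↔ ∀ r : X → X → Prop, ClosedPreorder r → MultiUtility r) ∧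
    (TopologicalSpace.MetrizableSpace X →
      (Q X ↔ (IsCompact {x : X | ¬ IsOpen ({x} : Set X)} ∨
        (LocallyCompactSpace X ∧
          TopologicalSpace.IsSeparable {x : X | ¬ IsOpen ({x} : Set X)})))) := by
  refine ⟨Pool.Agent.H15.WC.wc_iff_nrm, Pool.Agent.H15.WC.wc_iff_cmu, fun _ => ?_⟩
  let _ := TopologicalSpace.metrizableSpaceMetric X
  exact Pool.Agent.H15.WC.metric_main

end Pool.Agent.Results.MP_bb0bf1_gt.Char
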